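import Pool.Agent.H705.FP.Stm2

/-! # The extended real upper and lower limits along the times outside an exceptional set
(helper668; edited from helper955's `T_FIN`) -/

set_option autoImplicit false

namespace Pool.Agent.H668.FP

open MeasureTheory ProbabilityTheory Filter Topology Finset
open Pool.Agent.H705 Pool.Agent.H705.FP

theorem T_FIE : P_FIE := by
  intro E S a κ ha hκ hU hL c
  set Λ : EReal := RO.Lam a κ with hΛ
  have hR : ∀ N, 0 ≤ RO.R a N := fun N => Finset.sum_nonneg fun n _ => ha n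
  have hlN : ∀ N : ℕ, 0 ≤ Real.log (N : ℝ) ^ κ := fun N =>
    Real.rpow_nonneg (Real.log_natCast_nonneg N) κ
  have hlpos : ∀ᶠ N : ℕ in atTop, 0 < Real.log (N : ℝ) ^ κ := by
    filter_upwards [eventually_ge_atTop 2] with N hN
    refine Real.rpow_pos_of_pos (Real.log_pos ?_) κ
    exact_mod_cast hN
  have hΛ0 : 0 ≤ Λ := by
    refine Filter.le_limsup_of_frequently_le (Eventually.frequently (Eventually.of_forall fun N => ?_))
    exact_mod_cast div_nonneg (hR N) (hlN N)
  -- the scale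
  set l : ℝ → ℝ := fun t => Real.log (Real.log t) ^ κ with hl
  have hlt : Tendsto l atTop atTop :=
    (tendsto_rpow_atTop hκ).comp (Real.tendsto_log_atTop.comp Real.tendsto_log_atTop)
  have hcl : ∀ η : ℝ, 0 < η → ∀ᶠ t in atTop, |c| ≤ η * l t := by
    intro η hη
    filter_upwards [hlt.eventually_ge_atTop (|c| / η)] with t ht
    rw [div_le_iff₀ hη] at ht
    linarith
  have hU' : ∀ b' : ℝ, Λ < (b' : EReal) → ∀ᶠ t in atTop, t ∉ E → |c + S t| ≤ b' * l t := by
    intro b' hb'
    obtain ⟨b, hb1, hb2⟩ := EReal.lt_iff_exists_real_btwn.1 hb'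
    have hb2' : b < b' := by exact_mod_cast hb2
    have hb0 : 0 ≤ b := by
      have h1 : (0 : EReal) < (b : EReal) := lt_of_le_of_lt hΛ0 hb1
      have h2 : (0 : ℝ) < b := by exact_mod_cast h1
      exact h2.le
    have h1 : ∀ᶠ N : ℕ in atTop, RO.R a N ≤ b * Real.log N ^ κ := by
      filter_upwards [Filter.eventually_lt_of_limsup_lt hb1, hlpos] with N hN hN'
      have h2 : RO.R a N / Real.log N ^ κ < b := by exact_mod_cast hN
      rw [div_lt_iff₀ hN'] at h2
      exact h2.le
    filter_upwards [hU b ((b + b') / 2) hb0 (by linarith) h1, hcl ((b' - b) / 2) (by linarith)] with t ht0 ht' htE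
    have ht := ht0 htE
    change |S t| ≤ (b + b') / 2 * l t at ht
    calc |c + S t| ≤ |c| + |S t| := abs_add_le _ _
      _ ≤ (b' - b) / 2 * l t + (b + b') / 2 * l t := add_le_add ht' ht
      _ = b' * l t := by ring
  have hL' : ∀ b'' : ℝ, (b'' : EReal) < Λ → ∀ σ : ℝ, (σ = 1 ∨ σ = -1) →
      ∃ᶠ t in atTop, t ∉ E ∧ b'' * l t ≤ σ * (c + S t) := by
    intro b'' hb'' σ hσ
    obtain ⟨b, hb0, hb1, hb2⟩ : ∃ b : ℝ, 0 ≤ b ∧ b'' < b ∧
        ∃ᶠ N : ℕ in atTop, b * Real.log N ^ κ ≤ RO.R a N := by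
      rcases lt_or_ge b'' 0 with h0 | h0
      · refine ⟨0, le_rfl, h0, Eventually.frequently (Eventually.of_forall fun N => ?_)⟩
        rw [zero_mul]
        exact hR N
      · obtain ⟨b, hb1, hb2⟩ := EReal.lt_iff_exists_real_btwn.1 hb''
        have hb1' : b'' < b := by exact_mod_cast hb1
        refine ⟨b, by linarith, hb1', ?_⟩
        have h2 := Filter.frequently_lt_of_lt_limsup (by isBoundedDefault) hb2
        refine (h2.and_eventually hlpos).mono ?_
        rintro N ⟨hN, hN'⟩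
        have h3 : b < RO.R a N / Real.log N ^ κ := by exact_mod_cast hN
        rw [lt_div_iff₀ hN'] at h3
        exact h3.le
    have h1 := hL σ b ((b'' + b) / 2) hσ hb0 (by linarith) hb2
    refine (h1.and_eventually (hcl ((b - b'') / 2) (by linarith))).mono ?_
    rintro t ⟨⟨htE, ht⟩, ht'⟩
    refine ⟨htE, ?_⟩
    change (b'' + b) / 2 * l t ≤ σ * S t at ht
    have h2 : -|c| ≤ σ * c := by
      rcases hσ with rfl | rfl
      · rw [one_mul]; exact neg_abs_le c
      · rw [neg_one_mul, neg_le_neg_iff]; exact le_abs_self c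
    have h3 : σ * (c + S t) = σ * c + σ * S t := by ring
    rw [h3]
    have h4 : b'' * l t = -((b - b'') / 2 * l t) + (b'' + b) / 2 * l t := by ring
    rw [h4]
    linarith
  -- the quotient
  set q : ℝ → ℝ := fun t => (c + S t) / Real.log (Real.log t) ^ κ with hq
  obtain ⟨F, hF⟩ : ∃ F : Filter ℝ, F = atTop ⊓ 𝓟 Eᶜ := ⟨_, rfl⟩
  rw [← hF]
  have hev : ∀ P : ℝ → Prop, (∀ᶠ t in atTop, t ∉ E → P t) → ∀ᶠ t in F, P t := by
    intro P hP
    rw [hF, eventually_inf_principal]
    exact hP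
  have hfr : ∀ P : ℝ → Prop, (∃ᶠ t in atTop, t ∉ E ∧ P t) → ∃ᶠ t in F, P t := by
    intro P hP
    rw [hF, frequently_inf_principal]
    exact hP
  have hup : ∀ b' : ℝ, Λ < (b' : EReal) → ∀ᶠ x in F, q x ≤ b' ∧ -b' ≤ q x := by
    intro b' hb'
    refine hev _ ?_
    filter_upwards [hlt.eventually_gt_atTop 0, hU' b' hb'] with x hx0 hx' hxE
    change (c + S x) / l x ≤ b' ∧ -b' ≤ (c + S x) / l x
    rw [div_le_iff₀ hx0, le_div_iff₀ hx0]
    obtain ⟨h1, h2⟩ := abs_le.1 (hx' hxE)
    exact ⟨h2, by linarith⟩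
  have hlo : ∀ b'' : ℝ, (b'' : EReal) < Λ → ∀ σ : ℝ, (σ = 1 ∨ σ = -1) → ∃ᶠ x in F, b'' ≤ σ * q x := by
    intro b'' hb'' σ hσ
    refine hfr _ ?_
    refine ((hL' b'' hb'' σ hσ).and_eventually (hlt.eventually_gt_atTop 0)).mono ?_
    rintro x ⟨⟨hxE, h1⟩, hx0⟩
    refine ⟨hxE, ?_⟩
    change b'' ≤ σ * ((c + S x) / l x)
    rw [← mul_div_assoc, le_div_iff₀ hx0]
    exact h1
  constructor
  · apply le_antisymm
    · rw [← EReal.le_of_forall_lt_iff_le]
      intro z hz
      refine Filter.limsup_le_of_le (by isBoundedDefault) ?_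
      filter_upwards [hup z hz] with x hx
      exact_mod_cast hx.1
    · rw [← EReal.ge_of_forall_gt_iff_ge]
      intro z hz
      refine Filter.le_limsup_of_frequently_le ((hlo z hz 1 (Or.inl rfl)).mono fun x hx => ?_)
      rw [one_mul] at hx
      exact_mod_cast hx
  · apply le_antisymm
    · rw [← EReal.le_of_forall_lt_iff_le]
      intro z hz
      have hz' : ((-z : ℝ) : EReal) < Λ := by
        rw [EReal.coe_neg]
        exact EReal.neg_lt_comm.1 hz
      refine Filter.liminf_le_of_frequently_le ((hlo (-z) hz' (-1) (Or.inr rfl)).mono fun x hx => ?_)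
      have h1 : q x ≤ z := by linarith
      exact_mod_cast h1
    · rw [← EReal.ge_of_forall_gt_iff_ge]
      intro z hz
      have hz' : Λ < ((-z : ℝ) : EReal) := by
        rw [EReal.coe_neg]
        exact EReal.lt_neg_comm.1 hz
      refine Filter.le_liminf_of_le (by isBoundedDefault) ?_
      filter_upwards [hup (-z) hz'] with x hx
      have h1 : z ≤ q x := by linarith [hx.2]
      exact_mod_cast h1

end Pool.Agent.H668.FP

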